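import Pool.Agent.W661.RC.Stm2

/-!
# Project RC, part CLS: representatives of classes
-/

set_option autoImplicit false

namespace Pool.Agent.W789.RC.CLS

open Matrix Pool.Agent.W661.RC
open scoped ComplexOrder

noncomputable section

lemma hs_star {m n : Type} [Fintype m] [Fintype n] (x : Matrix m n ℂ) : hs xᴴ = hs x := by
  unfold hs
  rw [Finset.sum_comm]
  apply Finset.sum_congr rfl
  intro i _
  apply Finset.sum_congr rfl
  intro j _
  rw [conjTranspose_apply, norm_star]

lemma hs_trace {d : ℕ} (x : Mt d) : ((hs x : ℝ) : ℂ) = Matrix.trace (xᴴ * x) := by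
  unfold hs Matrix.trace
  simp only [diag_apply, mul_apply, conjTranspose_apply]
  push_cast
  rw [Finset.sum_comm]
  apply Finset.sum_congr rfl
  intro i _
  apply Finset.sum_congr rfl
  intro j _
  exact (Complex.conj_mul' (x j i)).symm

lemma hs_mul_left {d : ℕ} (u x : Mt d) (hu : uᴴ * u = 1) : hs (u * x) = hs x := by
  have h : ((hs (u * x) : ℝ) : ℂ) = ((hs x : ℝ) : ℂ) := by
    rw [hs_trace, hs_trace, conjTranspose_mul]
    have : xᴴ * uᴴ * (u * x) = xᴴ * ((uᴴ * u) * x) := by simp only [Matrix.mul_assoc]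
    rw [this, hu, Matrix.one_mul]
  exact_mod_cast h

lemma hs_mul_right {d : ℕ} (u x : Mt d) (hu : uᴴ * u = 1) : hs (x * u) = hs x := by
  have hu' : (uᴴ)ᴴ * uᴴ = 1 := by
    rw [conjTranspose_conjTranspose]
    exact mul_eq_one_comm.1 hu
  rw [← hs_star (x * u), conjTranspose_mul, hs_mul_left _ _ hu', hs_star]

lemma en_star {d k : ℕ} (u : Fin k → Mt d) (hu : ∀ s, (u s)ᴴ * u s = 1) (x : Mt d) :
    en u xᴴ = en u x := by
  unfold en
  apply Finset.sum_congr rfl
  intro s _
  have h1 : hs (u s * xᴴ - xᴴ * u s) = hs (x * (u s)ᴴ - (u s)ᴴ * x) := by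
    rw [← hs_star]
    congr 1
    rw [conjTranspose_sub, conjTranspose_mul, conjTranspose_mul, conjTranspose_conjTranspose]
  have h2 : hs (x * (u s)ᴴ - (u s)ᴴ * x) = hs (u s * ((x * (u s)ᴴ - (u s)ᴴ * x) * u s)) := by
    rw [hs_mul_left _ _ (hu s), hs_mul_right _ _ (hu s)]
  have hu' : u s * (u s)ᴴ = 1 := mul_eq_one_comm.1 (hu s)
  rw [h1, h2]
  congr 1
  rw [Matrix.sub_mul, Matrix.mul_sub]
  have e1 : u s * (x * (u s)ᴴ * u s) = u s * x := by
    rw [Matrix.mul_assoc x, hu s, Matrix.mul_one]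
  have e2 : u s * ((u s)ᴴ * x * u s) = x * u s := by
    rw [← Matrix.mul_assoc, ← Matrix.mul_assoc, hu', Matrix.one_mul]
  rw [e1, e2]

/-- representatives of a symmetric relation, smallest weights first -/
lemma reps {n : ℕ} (R : Fin n → Fin n → Prop) (hR : ∀ i j, R i j → R j i) (t : Fin n → ℝ) :
    ∃ c : Fin n → Fin n, (∀ i, (c i = i ∨ R (c i) i) ∧ t (c i) ≤ t i) ∧
      ∀ i j, c i ≠ c j → ¬ R (c i) (c j) := by
  classical
  have key : ∀ s : Finset (Fin n), ∃ P : Finset (Fin n), P ⊆ s ∧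
      (∀ p ∈ P, ∀ p' ∈ P, p ≠ p' → ¬ R p p') ∧
      ∀ i ∈ s, ∃ p ∈ P, (p = i ∨ R p i) ∧ t p ≤ t i := by
    intro s
    induction s using Finset.induction_on_max_value t with
    | empty => exact ⟨∅, by simp, by simp, by simp⟩
    | insert a s ha hmax ih =>
      obtain ⟨P, hPs, hP1, hP2⟩ := ih
      by_cases h : ∃ p ∈ P, R p a
      · obtain ⟨p, hp, hpa⟩ := h
        refine ⟨P, hPs.trans (Finset.subset_insert _ _), hP1, ?_⟩
        intro i hi
        rcases Finset.mem_insert.1 hi with rfl | hi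
        · exact ⟨p, hp, Or.inr hpa, hmax p (hPs hp)⟩
        · exact hP2 i hi
      · push Not at h
        refine ⟨insert a P, Finset.insert_subset_insert _ hPs, ?_, ?_⟩
        · intro p hp p' hp' hne
          rcases Finset.mem_insert.1 hp with e1 | e1
          · rcases Finset.mem_insert.1 hp' with e2 | e2
            · exact absurd (e1.trans e2.symm) hne
            · rw [e1]
              intro h1
              exact h p' e2 (hR _ _ h1)
          · rcases Finset.mem_insert.1 hp' with e2 | e2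
            · rw [e2]
              exact h p e1
            · exact hP1 p e1 p' e2 hne
        · intro i hi
          rcases Finset.mem_insert.1 hi with rfl | hi
          · exact ⟨i, Finset.mem_insert_self _ _, Or.inl rfl, le_rfl⟩
          · obtain ⟨p, hp, h1⟩ := hP2 i hi
            exact ⟨p, Finset.mem_insert_of_mem hp, h1⟩
  obtain ⟨P, -, hP1, hP2⟩ := key Finset.univ
  choose c hc1 hc2 using fun i => hP2 i (Finset.mem_univ i)
  exact ⟨c, hc2, fun i j hne => hP1 _ (hc1 i) _ (hc1 j) hne⟩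

lemma hs_nonneg {d : ℕ} (x : Mt d) : 0 ≤ hs x :=
  Finset.sum_nonneg fun i _ => Finset.sum_nonneg fun j _ => sq_nonneg _

lemma en_nonneg {d k : ℕ} (u : Fin k → Mt d) (x : Mt d) : 0 ≤ en u x :=
  Finset.sum_nonneg fun i _ => hs_nonneg _

theorem main (hI : IntP) : ClsP := by
  intro d k C η δ S C2 ζ n q hη hC hC2 hζ hsm hpr htr hgap hen hD
  obtain ⟨γ, hγ⟩ : ∃ γ : ℝ, γ = 1 / (1000 * (k + 1) * C2 * C) := ⟨_, rfl⟩
  obtain ⟨c, hc1, hc2⟩ := reps
    (fun i j => ∃ x : Mt d, x ≠ 0 ∧ q i * x * q j = x ∧ en S.u x < γ * hs x)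
    (by
      rintro i j ⟨x, hx0, hx1, hx2⟩
      refine ⟨xᴴ, ?_, ?_, ?_⟩
      · intro h
        apply hx0
        rw [← conjTranspose_conjTranspose x, h, conjTranspose_zero]
      · have h1 : (q i * x * q j)ᴴ = xᴴ := by rw [hx1]
        rw [conjTranspose_mul, conjTranspose_mul, (hpr i).1, (hpr j).1] at h1
        rw [Matrix.mul_assoc]
        exact h1
      · rw [en_star _ S.hu, hs_star]
        exact hx2)
    (fun i => tr (q i))
  have hkp : (0 : ℝ) ≤ k := Nat.cast_nonneg k
  have hsum : 0 ≤ ζ + η := by linarith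
  have hex : ∀ i, ∃ v : Mt d, vᴴ * v = q (c i) ∧ q i * v = v ∧
      tr (q i) ≤ (1 + 150 * C2 * (ζ + η)) * tr (q (c i)) ∧
      en S.u v ≤ 3000 * (k + 1) * C2 * (ζ + η) * tr (q (c i)) := by
    intro i
    obtain ⟨h1, h2⟩ := hc1 i
    rcases h1 with h1 | ⟨x, hx0, hx1, hx2⟩
    · refine ⟨q i, ?_, (hpr i).2, ?_, ?_⟩
      · rw [h1, (hpr i).1, (hpr i).2]
      · rw [h1]
        have h3 : 0 ≤ 150 * C2 * (ζ + η) := by positivity
        have h4 := (htr i).le
        nlinarith [mul_nonneg h3 h4]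
      · rw [h1]
        refine (hen i).trans ?_
        have h4 := (htr i).le
        apply mul_le_mul_of_nonneg_right _ h4
        have h5 : (1 : ℝ) ≤ 3000 * (k + 1) * C2 := by
          have h6 : (1 : ℝ) ≤ 3000 * (k + 1) := by linarith
          calc (1 : ℝ) = 1 * 1 := by norm_num
            _ ≤ 3000 * (k + 1) * C2 := mul_le_mul h6 hC2 zero_le_one (by linarith)
        calc ζ ≤ ζ + η := by linarith
          _ = 1 * (ζ + η) := (one_mul _).symm
          _ ≤ 3000 * (k + 1) * C2 * (ζ + η) := mul_le_mul_of_nonneg_right h5 hsum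
    · apply hI d k C η δ S C2 ζ (q (c i)) (q i) xᴴ hη hC hC2 hζ hsm (hpr _) (hpr _) (htr _) h2
        (hgap _) (hgap _) (hen _) (hen _) (hD _) (hD _)
      · have h1 : (q (c i) * x * q i)ᴴ = xᴴ := by rw [hx1]
        rw [conjTranspose_mul, conjTranspose_mul, (hpr _).1, (hpr _).1] at h1
        rw [Matrix.mul_assoc]
        exact h1
      · intro h
        apply hx0
        rw [← conjTranspose_conjTranspose x, h, conjTranspose_zero]
      · rw [en_star _ S.hu, hs_star, ← hγ]
        exact hx2.le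
  choose v hv1 hv2 hv3 hv4 using hex
  refine ⟨c, v, hv1, hv2, fun i => (hc1 i).2, hv3, hv4, ?_⟩
  intro i j hne x hx
  rw [← hγ]
  by_contra hlt
  push Not at hlt
  by_cases hx0 : x = 0
  · rw [hx0] at hlt
    have h1 : hs (0 : Mt d) = 0 := by
      unfold hs
      simp
    rw [h1, mul_zero] at hlt
    exact absurd (en_nonneg S.u 0) (not_le.2 hlt)
  · exact hc2 i j hne ⟨x, hx0, hx, hlt⟩

end

end Pool.Agent.W789.RC.CLS
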